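import Pool.Agent.N299.ND.Stm

/-!
Project ND, piece CLS: amplification for a colour class.
-/

set_option autoImplicit false

open scoped BoundedContinuousFunction Topology Matrix.Norms.L2Operator
open Filter

noncomputable section

namespace Pool.Agent.N565.ND

open Pool.Agent.N299 Pool.Agent.N299.DT Pool.Agent.N299.ND

section

variable {B : Type} [CStarAlgebra B]

lemma two_le {a b : B} {r : ℝ} (ha : ‖a‖ ≤ r) (hb : ‖b‖ ≤ r) (h1 : star a * b = 0)
    (h2 : a * star b = 0) : ‖a + b‖ ≤ r := by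
  have h1' : star b * a = 0 := by
    have := congrArg star h1
    rwa [star_mul, star_star, star_zero] at this
  have h3 : star (a + b) * (a + b) = star a * a + star b * b := by
    rw [star_add, add_mul, mul_add, mul_add, h1, h1', add_zero, zero_add]
  have h4 : (star a * a) * (star b * b) = 0 := by
    rw [mul_assoc, ← mul_assoc a, h2, zero_mul, mul_zero]
  have h5 := (IsSelfAdjoint.star_mul_self a).norm_add_eq_max (IsSelfAdjoint.star_mul_self b) h4
  rw [← h3, CStarRing.norm_star_mul_self, CStarRing.norm_star_mul_self,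
    CStarRing.norm_star_mul_self] at h5
  have hr : 0 ≤ r := (norm_nonneg _).trans ha
  have h6 : ‖a + b‖ * ‖a + b‖ ≤ r * r := by
    rw [h5]
    exact max_le (mul_le_mul ha ha (norm_nonneg _) hr) (mul_le_mul hb hb (norm_nonneg _) hr)
  exact (mul_self_le_mul_self_iff (norm_nonneg _) hr).2 h6

lemma sum_le {ι : Type} (S : Finset ι) (w : ι → B) {r : ℝ} (hr : 0 ≤ r)
    (hw : ∀ j ∈ S, ‖w j‖ ≤ r)
    (h1 : ∀ j ∈ S, ∀ j' ∈ S, j ≠ j' → star (w j) * w j' = 0 ∧ w j * star (w j') = 0) :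
    ‖∑ j ∈ S, w j‖ ≤ r := by
  classical
  induction S using Finset.induction_on with
  | empty => simpa using hr
  | insert a S ha ih =>
    rw [Finset.sum_insert ha]
    refine two_le (hw a (Finset.mem_insert_self a S))
      (ih (fun j hj => hw j (Finset.mem_insert_of_mem hj))
        (fun j hj j' hj' => h1 j (Finset.mem_insert_of_mem hj) j' (Finset.mem_insert_of_mem hj')))
      ?_ ?_
    · rw [Finset.mul_sum]
      refine Finset.sum_eq_zero fun j hj => ?_
      exact (h1 a (Finset.mem_insert_self a S) j (Finset.mem_insert_of_mem hj)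
        (fun h => ha (h ▸ hj))).1
    · rw [star_sum, Finset.mul_sum]
      refine Finset.sum_eq_zero fun j hj => ?_
      exact (h1 a (Finset.mem_insert_self a S) j (Finset.mem_insert_of_mem hj)
        (fun h => ha (h ▸ hj))).2

/-- `w` lives on the block of `φ` -/
def H {n : ℕ} (φ : M n →ₗ[ℂ] B) (w : B) : Prop :=
  (∀ y, (∀ x, φ x * y = 0) → w * y = 0) ∧ ∀ y, (∀ x, y * φ x = 0) → y * w = 0

variable {n : ℕ} {φ : M n →ₗ[ℂ] B}

lemma H.ph (x : M n) : H φ (φ x) := ⟨fun _ h => h x, fun _ h => h x⟩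

lemma H.sub {a b : B} (ha : H φ a) (hb : H φ b) : H φ (a - b) :=
  ⟨fun y h => by rw [sub_mul, ha.1 y h, hb.1 y h, sub_zero],
    fun y h => by rw [mul_sub, ha.2 y h, hb.2 y h, sub_zero]⟩

lemma H.mul {a b : B} (ha : H φ a) (hb : H φ b) : H φ (a * b) :=
  ⟨fun y h => by rw [mul_assoc, hb.1 y h, mul_zero],
    fun y h => by rw [← mul_assoc, ha.2 y h, zero_mul]⟩

lemma H.sum {ι : Type} {S : Finset ι} {f : ι → B} (h : ∀ i ∈ S, H φ (f i)) :
    H φ (∑ i ∈ S, f i) :=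
  ⟨fun y hy => by
      rw [Finset.sum_mul]
      exact Finset.sum_eq_zero fun i hi => (h i hi).1 y hy,
    fun y hy => by
      rw [Finset.mul_sum]
      exact Finset.sum_eq_zero fun i hi => (h i hi).2 y hy⟩

lemma H.mid (x x' : M n) (b : B) : H φ (φ x * b * φ x') :=
  ⟨fun y h => by rw [mul_assoc, h x', mul_zero],
    fun y h => by rw [mul_assoc, ← mul_assoc, h x, zero_mul]⟩

lemma H.W (b : B) : H φ (W φ b) := H.sum fun _ _ => H.mid _ _ _

lemma H.st (hφ : ∀ x, φ (star x) = star (φ x)) {w : B} (hw : H φ w) : H φ (star w) := by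
  constructor
  · intro y h
    have h1 : star y * w = 0 := hw.2 _ fun x => by
      have h2 := congrArg Star.star (h (star x))
      rwa [star_mul, hφ, star_star, star_zero] at h2
    have h3 := congrArg Star.star h1
    rwa [star_mul, star_star, star_zero] at h3
  · intro y h
    have h1 : w * star y = 0 := hw.1 _ fun x => by
      have h2 := congrArg Star.star (h (star x))
      rwa [star_mul, hφ, star_star, star_zero] at h2
    have h3 := congrArg Star.star h1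
    rwa [star_mul, star_star, star_zero] at h3

lemma H.orth {n' : ℕ} {φ' : M n' →ₗ[ℂ] B} (h : ∀ x y, φ x * φ' y = 0) {w w' : B} (hw : H φ w)
    (hw' : H φ' w') : w * w' = 0 :=
  hw.1 _ fun x => hw'.2 _ fun y => h x y

lemma norm_mu00 : ‖(mu 0 0 : M n)‖ ≤ 1 := by
  have h1 : star (mu 0 0 : M n) = mu 0 0 := by
    unfold mu
    rw [Matrix.star_eq_conjTranspose, Matrix.conjTranspose_single, star_one]
  have h2 : (mu 0 0 : M n) * mu 0 0 = mu 0 0 := by
    unfold mu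
    rw [Matrix.single_mul_single_same, one_mul]
  have h3 : ‖star (mu 0 0 : M n) * mu 0 0‖ = ‖(mu 0 0 : M n)‖ * ‖(mu 0 0 : M n)‖ :=
    CStarRing.norm_star_mul_self
  rw [h1, h2] at h3
  rcases (norm_nonneg (mu 0 0 : M n)).eq_or_lt with h4 | h4
  · rw [← h4]
    exact zero_le_one
  · have h5 : ‖(mu 0 0 : M n)‖ * 1 = ‖(mu 0 0 : M n)‖ * ‖(mu 0 0 : M n)‖ := by
      rw [mul_one]
      exact h3
    exact (mul_left_cancel₀ h4.ne' h5).ge

lemma W_sum {ι : Type} (S : Finset ι) (b : ι → B) : W φ (∑ i ∈ S, b i) = ∑ i ∈ S, W φ (b i) := by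
  unfold W
  rw [Finset.sum_comm]
  refine Finset.sum_congr rfl fun k _ => ?_
  rw [Finset.mul_sum, Finset.sum_mul]

end

section

variable {B : Type} [CStarAlgebra B] {k : ℕ} {n : Fin k → ℕ} {φ : ∀ j, M (n j) →ₗ[ℂ] B}
  {S : Finset (Fin k)}

/-- norm of a sum of elements on orthogonal blocks -/
lemma sumH_le (hOZ : ∀ j ∈ S, OZ (φ j))
    (ho : ∀ j ∈ S, ∀ j' ∈ S, j ≠ j' → ∀ x y, φ j x * φ j' y = 0) (w : Fin k → B) {r : ℝ}
    (hr : 0 ≤ r) (hw : ∀ j ∈ S, ‖w j‖ ≤ r) (hH : ∀ j ∈ S, H (φ j) (w j)) :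
    ‖∑ j ∈ S, w j‖ ≤ r := by
  refine sum_le S w hr hw fun j hj j' hj' hne => ⟨?_, ?_⟩
  · exact H.orth (ho j hj j' hj' hne) (H.st (hOZ j hj).st (hH j hj)) (hH j' hj')
  · exact H.orth (ho j hj j' hj' hne) (hH j hj) (H.st (hOZ j' hj').st (hH j' hj'))

lemma prodH (ho : ∀ j ∈ S, ∀ j' ∈ S, j ≠ j' → ∀ x y, φ j x * φ j' y = 0) (w w' : Fin k → B)
    (hH : ∀ j ∈ S, H (φ j) (w j)) (hH' : ∀ j ∈ S, H (φ j) (w' j)) :
    (∑ j ∈ S, w j) * (∑ j ∈ S, w' j) = ∑ j ∈ S, w j * w' j := by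
  rw [Finset.sum_mul]
  refine Finset.sum_congr rfl fun j hj => ?_
  rw [Finset.mul_sum, Finset.sum_eq_single_of_mem j hj]
  intro j' hj' hne
  exact H.orth (ho j hj j' hj' hne.symm) (hH j hj) (hH' j' hj')

end

/-- **CLS** -/
theorem t_CLS (hAMP : S_AMP) (hDL : S_DL) : S_CLS := by
  intro k n B _ φ S hOZ ho K ε x z y hε hT
  have hbx : ∀ j : Fin k, ∀ s : Fin K, ∃ b : B, j ∈ S →
      x j s = φ j (mu 0 0) * b * φ j (mu 0 0) := by
    intro j s
    by_cases hj : j ∈ S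
    · obtain ⟨b, hb⟩ := (hT j hj).1.fx s
      exact ⟨b, fun _ => hb⟩
    · exact ⟨0, fun h => absurd h hj⟩
  have hbz : ∀ j : Fin k, ∀ s : Fin K, ∃ b : B, j ∈ S →
      z j s = φ j (mu 0 0) * b * φ j (mu 0 0) := by
    intro j s
    by_cases hj : j ∈ S
    · obtain ⟨b, hb⟩ := (hT j hj).1.fz s
      exact ⟨b, fun _ => hb⟩
    · exact ⟨0, fun h => absurd h hj⟩
  have hby : ∀ j : Fin k, ∀ s : Fin K, ∃ b : B, j ∈ S →
      y j s = φ j (mu 0 0) * b * φ j (mu 0 0) := by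
    intro j s
    by_cases hj : j ∈ S
    · obtain ⟨b, hb⟩ := (hT j hj).1.fy s
      exact ⟨b, fun _ => hb⟩
    · exact ⟨0, fun h => absurd h hj⟩
  choose bx hx using hbx
  choose bz hz using hbz
  choose by' hy using hby
  -- general facts for a family `b j`
  have norm1 : ∀ (b : Fin k → B) (w : Fin k → B), (∀ j ∈ S, w j = φ j (mu 0 0) * b j * φ j (mu 0 0)) →
      (∀ j ∈ S, ‖w j‖ ≤ 1) → ‖∑ j ∈ S, W (φ j) (b j)‖ ≤ 1 := by
    intro b w h1 h2
    refine sumH_le hOZ ho _ zero_le_one (fun j hj => ?_) (fun j _ => H.W _)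
    refine ((hAMP (n j) B (φ j) (hOZ j hj)).1 (b j)).trans ?_
    rw [← h1 j hj]
    exact h2 j hj
  have comm1 : ∀ (b : Fin k → B) (w : Fin k → B), (∀ j ∈ S, w j = φ j (mu 0 0) * b j * φ j (mu 0 0)) →
      (∀ j ∈ S, ‖φ j (mu 0 0) * w j - w j * φ j (mu 0 0)‖ ≤ ε) →
      ∀ (C : ℝ) (r : ∀ j, M (n j)), (∀ j ∈ S, ‖r j‖ ≤ C) → 0 ≤ C →
      ‖(∑ j ∈ S, W (φ j) (b j)) * (∑ j ∈ S, φ j (r j)) -
        (∑ j ∈ S, φ j (r j)) * (∑ j ∈ S, W (φ j) (b j))‖ ≤ C * ε := by
    intro b w h1 h2 C r hr hC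
    rw [prodH ho _ _ (fun j _ => H.W _) (fun j _ => H.ph _),
      prodH ho _ _ (fun j _ => H.ph _) (fun j _ => H.W _), ← Finset.sum_sub_distrib]
    refine sumH_le hOZ ho _ (mul_nonneg hC hε.le) (fun j hj => ?_)
      (fun j _ => ((H.W _).mul (H.ph _)).sub ((H.ph _).mul (H.W _)))
    refine ((hAMP (n j) B (φ j) (hOZ j hj)).2.2.2.1 (b j) (r j)).trans ?_
    rw [← h1 j hj]
    exact mul_le_mul (hr j hj) (h2 j hj) (norm_nonneg _) hC
  refine ⟨fun s => ∑ j ∈ S, W (φ j) (bx j s), fun s => ∑ j ∈ S, W (φ j) (bz j s),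
    fun s => ∑ j ∈ S, W (φ j) (by' j s), ?_, ?_, ?_⟩
  · intro s
    refine ⟨norm1 _ (fun j => x j s) (fun j hj => hx j s hj) (fun j hj => (hT j hj).1.nx s),
      norm1 _ (fun j => z j s) (fun j hj => hz j s hj) (fun j hj => (hT j hj).1.nz s),
      norm1 _ (fun j => y j s) (fun j hj => hy j s hj) (fun j hj => (hT j hj).1.ny s), ?_⟩
    rw [prodH ho _ _ (fun j _ => H.W _) (fun j _ => H.W _)]
    refine sumH_le hOZ ho _ hε.le (fun j hj => ?_) (fun j _ => (H.W _).mul (H.W _))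
    have hA := hAMP (n j) B (φ j) (hOZ j hj)
    rw [hA.2.1]
    refine (hA.1 _).trans ?_
    have h1 : φ j (mu 0 0) * (bz j s * (φ j (mu 0 0) * φ j (mu 0 0)) * bz j s) * φ j (mu 0 0) =
        z j s * z j s := by
      rw [hz j s hj]
      simp only [mul_assoc]
    rw [h1]
    exact (hT j hj).1.sq s
  · intro C r hr hC s
    exact ⟨comm1 _ (fun j => x j s) (fun j hj => hx j s hj) (fun j hj => ((hT j hj).2.2 s).1) C r hr hC,
      comm1 _ (fun j => z j s) (fun j hj => hz j s hj) (fun j hj => ((hT j hj).2.2 s).2.1) C r hr hC,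
      comm1 _ (fun j => y j s) (fun j hj => hy j s hj) (fun j hj => ((hT j hj).2.2 s).2.2) C r hr hC⟩
  · intro r hr
    have e1 : ∑ s, (∑ j ∈ S, W (φ j) (bx j s)) * (∑ j ∈ S, W (φ j) (bz j s)) *
        (∑ j ∈ S, W (φ j) (by' j s)) =
        ∑ j ∈ S, W (φ j) (∑ s, bx j s * (φ j (mu 0 0) * φ j (mu 0 0)) * bz j s *
          (φ j (mu 0 0) * φ j (mu 0 0)) * by' j s) := by
      simp only [W_sum]
      rw [Finset.sum_comm]
      refine Finset.sum_congr rfl fun s _ => ?_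
      rw [prodH ho _ _ (fun j _ => H.W _) (fun j _ => H.W _),
        prodH ho _ _ (fun j _ => (H.W _).mul (H.W _)) (fun j _ => H.W _)]
      refine Finset.sum_congr rfl fun j hj => ?_
      have hA := hAMP (n j) B (φ j) (hOZ j hj)
      rw [hA.2.1, hA.2.1]
    have e2 : (∑ j ∈ S, φ j (r j)) ^ 3 = ∑ j ∈ S, φ j 1 * φ j 1 * φ j (r j * r j * r j) := by
      rw [pow_succ, pow_two, prodH ho _ _ (fun j _ => H.ph _) (fun j _ => H.ph _),
        prodH ho _ _ (fun j _ => (H.ph _).mul (H.ph _)) (fun j _ => H.ph _)]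
      refine Finset.sum_congr rfl fun j hj => ?_
      rw [(hOZ j hj).mul (r j) (r j), mul_assoc, (hOZ j hj).mul (r j * r j) (r j), ← mul_assoc]
    rw [e1, e2, sub_mul, one_mul,
      prodH ho _ _ (fun j _ => H.W _) (fun j _ => ((H.ph _).mul (H.ph _)).mul (H.ph _)),
      ← Finset.sum_sub_distrib]
    refine sumH_le hOZ ho _ hε.le (fun j hj => ?_)
      (fun j _ => (((H.ph _).mul (H.ph _)).mul (H.ph _)).sub
        ((H.W _).mul (((H.ph _).mul (H.ph _)).mul (H.ph _))))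
    have hA := hAMP (n j) B (φ j) (hOZ j hj)
    set Q := φ j (mu 0 0) with hQ
    set v := ∑ s, bx j s * (Q * Q) * bz j s * (Q * Q) * by' j s with hv
    have e3 : φ j 1 * φ j 1 * φ j (r j * r j * r j) -
        W (φ j) v * (φ j 1 * φ j 1 * φ j (r j * r j * r j)) =
        ((1 - W (φ j) v) * (φ j 1 * φ j 1)) * φ j (r j * r j * r j) := by
      rw [sub_mul, sub_mul, one_mul, mul_assoc (W (φ j) v)]
    rw [e3]
    refine ((((hDL (M (n j)) B (φ j) (hOZ j hj)).1 _ _).1).trans ?_)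
    have h3 : ‖r j * r j * r j‖ ≤ 1 := by
      have h4 := hr j hj
      calc ‖r j * r j * r j‖ ≤ ‖r j‖ * ‖r j‖ * ‖r j‖ :=
            (norm_mul_le _ _).trans (mul_le_mul_of_nonneg_right (norm_mul_le _ _) (norm_nonneg _))
        _ ≤ 1 * 1 * 1 := by gcongr
        _ = 1 := by norm_num
    have h5 : ‖(1 - W (φ j) v) * (φ j 1 * φ j 1) * φ j 1‖ ≤ ε := by
      have e4 : (1 - W (φ j) v) * (φ j 1 * φ j 1) * φ j 1 = (1 - W (φ j) v) * φ j 1 ^ 3 := by
        rw [mul_assoc, pow_succ, pow_two]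
      rw [e4]
      refine (hA.2.2.2.2 v).trans ?_
      have e5 : Q * v * Q = ∑ s, x j s * z j s * y j s := by
        rw [hv, Finset.mul_sum, Finset.sum_mul]
        refine Finset.sum_congr rfl fun s _ => ?_
        rw [hx j s hj, hz j s hj, hy j s hj]
        simp only [mul_assoc, hQ]
      have hQ1 : ‖Q‖ ≤ 1 := ((hOZ j hj).norm _).trans norm_mu00
      have e6 : (1 - φ j (mu 0 0) * v * φ j (mu 0 0)) * φ j (mu 0 0) ^ 3 =
          (Q - (∑ s, x j s * z j s * y j s) * Q) * (Q * Q) := by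
        rw [← hQ, e5, sub_mul, one_mul, sub_mul]
        simp only [pow_succ, pow_zero, one_mul, mul_assoc]
      rw [e6]
      calc ‖(Q - (∑ s, x j s * z j s * y j s) * Q) * (Q * Q)‖
          ≤ ‖Q - (∑ s, x j s * z j s * y j s) * Q‖ * (‖Q‖ * ‖Q‖) :=
            (norm_mul_le _ _).trans (mul_le_mul_of_nonneg_left (norm_mul_le _ _) (norm_nonneg _))
        _ ≤ ε * (1 * 1) := by
            have := (hT j hj).2.1
            gcongr
        _ = ε := by ring
    calc ‖r j * r j * r j‖ * ‖(1 - W (φ j) v) * (φ j 1 * φ j 1) * φ j 1‖ ≤ 1 * ε :=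
          mul_le_mul h3 h5 (norm_nonneg _) zero_le_one
      _ = ε := one_mul ε

end Pool.Agent.N565.ND
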